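import Pool.Agent.W932.RO.Stm

/-!
# The W-hierarchy relative to a random oracle: the language on good instances
-/

set_option autoImplicit false

namespace Pool.Agent.W723.RO

open Finset H568R2 Pool.Agent.H676 Pool.Agent.W911.AL Pool.Agent.W932.RO
open Pool.Agent.NPC hiding lang
open Pool.Agent.H620R2.Gauge hiding par
open Pool.Agent.H591R3.PHG hiding lang

theorem ex_len (m : ℕ) (φ : List Bool → Prop) :
    (∃ w : List Bool, w.length = m ∧ φ w) ↔ ∃ i < 2 ^ m, φ (bitsOf m i) := by
  constructor
  · rintro ⟨w, rfl, h⟩
    obtain ⟨i, hi, h2⟩ := exists_bitsOf w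
    exact ⟨i, hi, by rw [h2]; exact h⟩
  · rintro ⟨i, _, h⟩
    exact ⟨bitsOf m i, length_bitsOf m i, h⟩

theorem all_len (m : ℕ) (φ : List Bool → Prop) :
    (∀ w : List Bool, w.length = m → φ w) ↔ ∀ i < 2 ^ m, φ (bitsOf m i) := by
  constructor
  · intro h i _
    exact h _ (length_bitsOf m i)
  · rintro h w rfl
    obtain ⟨i, hi, h2⟩ := exists_bitsOf w
    rw [← h2]
    exact h i hi

/-- the blocks and the tree -/
theorem blocks_iff (A : Oracle) (w : ℕ) : ∀ (ms : List ℕ) (b : Bool) (q : List Bool),
    Blocks (fun q => bitv A w q = (if b then !(par ms.length) else par ms.length)) ms b q ↔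
      (ms.foldr up (bitv A w)) q = !b := by
  intro ms
  induction ms with
  | nil =>
    intro b q
    cases b <;> simp [Blocks, par]
  | cons m ms ih =>
    intro b q
    cases b with
    | true =>
      have h1 : ∀ z : List Bool, Blocks (fun q => bitv A w q =
          (if true then !(par (m :: ms).length) else par (m :: ms).length)) ms false (q ++ z) ↔
          (ms.foldr up (bitv A w)) (q ++ z) = true := by
        intro z
        have := ih false (q ++ z)
        simpa [par] using this
      have h2 : Blocks (fun q => bitv A w q =
          (if true then !(par (m :: ms).length) else par (m :: ms).length)) (m :: ms) true q ↔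
          ∃ z : List Bool, z.length = m ∧ (ms.foldr up (bitv A w)) (q ++ z) = true := by
        rw [Blocks]
        exact exists_congr fun z => and_congr_right fun _ => h1 z
      rw [h2, ex_len m (fun z => (ms.foldr up (bitv A w)) (q ++ z) = true), List.foldr_cons]
      simp [up]
    | false =>
      have h1 : ∀ z : List Bool, Blocks (fun q => bitv A w q =
          (if false then !(par (m :: ms).length) else par (m :: ms).length)) ms true (q ++ z) ↔
          (ms.foldr up (bitv A w)) (q ++ z) = false := by
        intro z
        have := ih true (q ++ z)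
        simpa [par] using this
      have h2 : Blocks (fun q => bitv A w q =
          (if false then !(par (m :: ms).length) else par (m :: ms).length)) (m :: ms) false q ↔
          ∀ z : List Bool, z.length = m → (ms.foldr up (bitv A w)) (q ++ z) = false := by
        rw [Blocks]
        exact forall_congr' fun z => forall_congr' fun _ => h1 z
      rw [h2, all_len m (fun z => (ms.foldr up (bitv A w)) (q ++ z) = false), List.foldr_cons]
      simp [up]

/-- the list of the numbers of bits of an instance -/
theorem bl_list {t n K μ s : ℕ} {as : List ℕ} {a : ℕ} {x : List Bool}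
    (h : Inst (t + 1) n K μ s (as ++ [a]) x) (hl : as.length = t) :
    (List.range (t + 1 + 1)).map (fun i => bl i x) = μ :: (a + s) :: as.reverse := by
  have h0 := h.bl0
  have h1 := h.bl
  apply List.ext_getElem
  · simp [hl]
  · intro i hi hi'
    rw [List.getElem_map, List.getElem_range]
    match i, hi, hi' with
    | 0, _, _ => simpa using h0
    | 1, _, _ =>
      have := h1 0 (by omega)
      simp only [zero_add, Nat.sub_zero, if_true] at this
      rw [this]
      simp [List.getD_eq_getElem?_getD, hl]
    | i + 2, hi, hi' =>
      have hi2 : i < t := by simpa using hi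
      have := h1 (i + 1) (by omega)
      rw [this]
      have e : t + 1 - 1 - (i + 1) = t - 1 - i := by omega
      rw [e, if_neg (by omega), List.getD_eq_getElem?_getD,
        List.getElem?_append_left (by omega)]
      simp only [List.getElem_cons_succ, List.getElem_reverse, add_zero, hl]
      rw [List.getElem?_eq_getElem (by omega)]
      rfl

theorem main1 : StmLang := by
  intro t n K μ s as x A hI hl
  obtain ⟨as', a, rfl⟩ : ∃ as' a, as = as' ++ [a] := by
    have hne : as ≠ [] := by
      rintro rfl
      simp at hl
    exact ⟨as.dropLast, as.getLast hne, (List.dropLast_append_getLast hne).symm⟩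
  have hl' : as'.length = t := by simpa using hl
  have hb : x ∈ lang (t + 1) A ↔ ∃ z : List Bool, z.length = μ ∧
      ∀ z' : List Bool, z'.length = a + s →
        (as'.reverse.foldr up (bitv A (8 * n))) (x ++ z ++ z') = false := by
    unfold lang
    rw [Set.mem_ofPred_eq, bl_list hI hl', hI.wl, Blocks]
    refine exists_congr fun z => and_congr_right fun _ => ?_
    rw [Blocks]
    refine forall_congr' fun z' => forall_congr' fun _ => ?_
    have := blocks_iff A (8 * n) as'.reverse true (x ++ z ++ z')
    simpa [par, hl'] using this
  rw [hb, ex_len μ (fun z => ∀ z' : List Bool, z'.length = a + s →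
        (as'.reverse.foldr up (bitv A (8 * n))) (x ++ z ++ z') = false)]
  have ht : ∀ r : List Bool, tv (as' ++ [a]) (8 * n)
      (fun i => A (lf (as' ++ [a]) (8 * n) r i)) = true ↔
      ∀ i < 2 ^ a, (as'.reverse.foldr up (bitv A (8 * n))) (r ++ bitsOf a i) = false := by
    intro r
    have h1 : tv (as' ++ [a]) (8 * n) (fun i => A (lf (as' ++ [a]) (8 * n) r i)) =
        ((as' ++ [a]).foldl (fun v a => up a v) (bitv A (8 * n))) r :=
      tr_leaves A (as' ++ [a]) (8 * n) (fun _ : Unit => r) ()
    rw [h1, List.foldl_append, List.foldr_reverse]
    simp only [List.foldl_cons, List.foldl_nil]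
    unfold up
    simp
  constructor
  · rintro ⟨y, hy, h⟩
    refine ⟨⟨y, hy⟩, fun g => ?_⟩
    show tv (as' ++ [a]) (8 * n) (fun i => A (lf (as' ++ [a]) (8 * n)
      (x ++ bitsOf μ y ++ bitsOf s g.val) i)) = true
    rw [ht]
    intro i _
    have := h (bitsOf s g.val ++ bitsOf a i) (by
      rw [List.length_append, length_bitsOf, length_bitsOf]; omega)
    rw [← List.append_assoc] at this
    exact this
  · rintro ⟨y, h⟩
    refine ⟨y.val, y.isLt, fun z' hz' => ?_⟩
    obtain ⟨g, hg, hge⟩ := exists_bitsOf (z'.take s)
    obtain ⟨i, hi, hie⟩ := exists_bitsOf (z'.drop s)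
    have hls : (z'.take s).length = s := by rw [List.length_take]; omega
    have hla : (z'.drop s).length = a := by rw [List.length_drop]; omega
    rw [hls] at hg hge
    rw [hla] at hi hie
    have h2 : tv (as' ++ [a]) (8 * n) (fun i => A (lf (as' ++ [a]) (8 * n)
      (x ++ bitsOf μ y.val ++ bitsOf s g) i)) = true := h ⟨g, hg⟩
    rw [ht] at h2
    have h3 := h2 i hi
    rw [hge, hie, List.append_assoc, List.take_append_drop] at h3
    exact h3

/-! ### the existence of instances -/

/-- numbers, in unary notation, and then a string -/
def encL : List ℕ → List Bool → List Bool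
  | [], z => z
  | a :: l, z => pairBits (List.replicate a true) (encL l z)

theorem length_encL (l : List ℕ) (z : List Bool) :
    (encL l z).length = 2 * l.sum + l.length + z.length := by
  induction l with
  | nil => simp [encL]
  | cons a l ih =>
    rw [encL, length_pairBits, ih, List.length_replicate, List.sum_cons, List.length_cons]
    ring

theorem rst_succ (i : ℕ) (x : List Bool) : rst (i + 1) x = rst i (unpair x).2 := by
  unfold rst
  rw [Function.iterate_succ_apply]

theorem num_encL (l : List ℕ) (z : List Bool) : ∀ (i : ℕ) (hi : i < l.length),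
    num i (encL l z) = l[i] := by
  induction l with
  | nil => intro i hi; simp at hi
  | cons a l ih =>
    intro i hi
    match i, hi with
    | 0, _ =>
      unfold num rst
      rw [Function.iterate_zero, id, encL, unpair_pairBits]
      simp
    | i + 1, hi =>
      have h1 := ih i (by simpa using hi)
      unfold num at h1 ⊢
      rw [rst_succ, encL, unpair_pairBits]
      simpa using h1

theorem main2 : StmInst := by
  intro t n K μ s as hl ha hs hμ hsz
  obtain ⟨as', a, rfl⟩ : ∃ as' a, as = as' ++ [a] := by
    have hne : as ≠ [] := by
      rintro rfl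
      simp at hl
    exact ⟨as.dropLast, as.getLast hne, (List.dropLast_append_getLast hne).symm⟩
  have hl' : as'.length = t := by simpa using hl
  have ha' : a ≤ 64 * n := ha a (by simp)
  have hn : 1 ≤ n := by
    by_contra hn
    have : n = 0 := by omega
    subst this
    simp at hsz
  set l : List ℕ := K :: (8 * n) :: μ :: (a + s) :: as'.reverse with hldef
  have hlen : l.length = t + 4 := by simp [hldef, hl']
  have hsum : l.sum = K + 8 * n + μ + s + (as' ++ [a]).sum := by
    simp only [hldef, List.sum_cons, List.sum_reverse, List.sum_append, List.sum_nil]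
    ring
  set N : ℕ := 2 ^ (65 * n - 1) with hN
  set x : List Bool := encL l (List.replicate (N - (2 * l.sum + l.length)) true) with hx
  have hxl : x.length = N := by
    rw [hx, length_encL, List.length_replicate, hsum, hlen]
    omega
  have hlg : lg x = 65 * n := by
    unfold lg
    rw [hxl, hN, Nat.size_pow]
    omega
  have hnum : ∀ (i : ℕ) (hi : i < l.length), num i x = l[i] := fun i hi => num_encL l _ i hi
  have hk : kap x = K := by
    unfold kap
    rw [hnum 0 (by omega)]
    rfl
  refine ⟨x, ⟨hk, ?_, ?_, ?_⟩, hlg, hxl⟩
  · unfold wl
    rw [hnum 1 (by omega), hlg]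
    show min (8 * n) (65 * n) = 8 * n
    omega
  · rw [bl, hnum 2 (by omega), hk, hlg]
    show min μ (K * (65 * n)) = μ
    exact min_eq_left hμ
  · intro i hi
    rw [bl, hnum (i + 3) (by omega), hlg]
    match i, hi with
    | 0, _ =>
      show min (a + s) (65 * n) = _
      rw [min_eq_left (by omega)]
      simp [List.getD_eq_getElem?_getD, hl']
    | i + 1, hi =>
      have hi2 : i < t := by omega
      have e1 : l[i + 1 + 3]'(by omega) = as'[t - 1 - i]'(by omega) := by
        simp only [hldef, List.getElem_cons_succ, List.getElem_reverse, hl']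
      have e : t + 1 - 1 - (i + 1) = t - 1 - i := by omega
      have h3 : as'[t - 1 - i]'(by omega) ≤ 64 * n :=
        ha _ (List.mem_append_left _ (List.getElem_mem _))
      rw [e1, min_eq_left (by omega), e, if_neg (by omega), List.getD_eq_getElem?_getD,
        List.getElem?_append_left (by omega), List.getElem?_eq_getElem (by omega)]
      rfl

end Pool.Agent.W723.RO
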